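import Pool.Agent.H75C.HY.TRG

/-!
# Piece D4: a certificate gives a won game
-/

set_option autoImplicit false
set_option synthInstance.maxSize 4000

namespace Pool.Agent.Helper78.TRD4

open Pool.Agent.NPC Pool.Agent.H75C.HY Pool.Agent.H75C.HY.TR

/-! ### Bool tests -/

theorem subb_iff {α : Type} [DecidableEq α] (l l' : List α) :
    subb l l' = true ↔ ∀ a ∈ l, a ∈ l' := by
  unfold subb
  rw [List.all_eq_true]
  simp

theorem clokb_iff (c : Cl) : clokb c = true ↔ Clok c := by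
  unfold clokb Clok
  simp

theorem vk_len {w : List Tok} {k : Key} (h : vk w k = true) : k.1.length ≤ w.length := by
  unfold vk at h
  simp only [Bool.and_eq_true, decide_eq_true_eq] at h
  exact h.1.1.1

theorem vk_mem {w : List Tok} {k : Key} (h : vk w k = true) : ∀ t ∈ k.1, t ∈ w := by
  unfold vk at h
  simp only [Bool.and_eq_true, decide_eq_true_eq, List.all_eq_true] at h
  exact h.1.1.2

theorem vsp_N {w : List Tok} {L : ℕ} {s : Sp} (h : vsp w L s = true) : N s.1 ≤ L := by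
  unfold vsp vcl at h
  simp only [Bool.and_eq_true, decide_eq_true_eq] at h
  exact h.1.1.1.1.1

theorem vl_mono {w : List Tok} {L L' : ℕ} (hL : L ≤ L') {l : List (ℕ × ℕ)}
    (h : vl w L l = true) : vl w L' l = true := by
  unfold vl at h ⊢
  simp only [Bool.and_eq_true, decide_eq_true_eq, List.all_eq_true] at h ⊢
  exact ⟨h.1.trans hL, fun p hp => ⟨(h.2 p hp).1, (h.2 p hp).2.trans_le hL⟩⟩

theorem vsp_mono {w : List Tok} {L L' : ℕ} (hL : L ≤ L') {s : Sp} (h : vsp w L s = true) :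
    vsp w L' s = true := by
  unfold vsp vcl vz vf at h ⊢
  simp only [Bool.and_eq_true, decide_eq_true_eq, List.all_eq_true] at h ⊢
  obtain ⟨⟨⟨⟨⟨h1, h2⟩, h3⟩, h4⟩, h5, h6⟩, h7, h8⟩ := h
  exact ⟨⟨⟨⟨⟨h1.trans hL, vl_mono hL h2⟩, vl_mono hL h3⟩, vl_mono hL h4⟩, h5.trans hL,
    fun z hz => (h6 z hz).trans_le hL⟩, h7.trans hL, h8⟩

/-- A message of given length that codes given data. -/
theorem exists_msg {α : Type} [TEnc α] [TDec α] (d : α) {W : ℕ} (h : 2 * sz d + 1 ≤ W) :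
    ∃ M : List Bool, M.length = W ∧ unbits α (unpair M).1 = some d := by
  have hpl : ∀ x y : List Bool, (pairBits x y).length = 2 * x.length + 1 + y.length := by
    intro x y
    unfold pairBits
    rw [List.length_append, List.length_cons, List.length_flatMap]
    have : (List.map (fun b => ([true, b] : List Bool).length) x).sum = 2 * x.length := by
      induction x with
      | nil => rfl
      | cons a x ih =>
        rw [List.map_cons, List.sum_cons, ih]
        simp only [List.length_cons, List.length_nil]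
        omega
    rw [this]
    omega
  have hb : (bits d).length = sz d := bits_length d
  refine ⟨pairBits (bits d) (List.replicate (W - (2 * (bits d).length + 1)) false), ?_, ?_⟩
  · rw [hpl, List.length_replicate]
    omega
  · rw [unpair_pairBits]
    exact unbits_bits _

/-! ### The parts of D2 that are used -/

variable {𝔅 : Base} {E : ℕ → List Bool → Bool} {K : ℕ → ℕ} {argX : List Tok → ℕ → List Tok}
  {wf : List Tok → Bool}

structure D2f (𝔅 : Base) (E : ℕ → List Bool → Bool) (K : ℕ → ℕ)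
    (argX : List Tok → ℕ → List Tok) (wf : List Tok → Bool) (w : List Tok) (W : ℕ) : Prop where
  fin : ∀ (r : Bool) (n : ℕ), GV (tstep E K argX wf w) tout W n (fin r) ↔ r = true
  ev : ∀ (c : Cl) (mc : Fls), N c ≤ W → ∀ ψ : Form 𝔅, NoAt ψ → ∀ (B : List ℕ) (v : ℕ) (b : Bool)
      (n : ℕ), v < N c → (pr ψ).length ≤ n → (∀ t ∈ pr ψ, t ∈ w) → kv c mc ψ B v = b →
        GV (tstep E K argX wf w) tout W n (evS c mc (pr ψ, B) v b)
  nd : ∀ (J : List Key) (ψ : Form 𝔅), NoAt ψ → ∀ (B : List ℕ) (n : ℕ),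
      (pr ψ).length ≤ n → Need J ψ B → GV (tstep E K argX wf w) tout W n (ndS J (pr ψ, B))

theorem D2f_of (h2 : D2) (hF : FS 𝔅 E K argX wf) (w : List Tok) {W : ℕ}
    (har : ∀ b : 𝔅.B, 𝔅.ar b < W) : D2f 𝔅 E K argX wf w W := by
  obtain ⟨h1, h3, h4⟩ := h2 𝔅 E K argX wf hF w W har
  exact ⟨h1, fun c mc hN ψ hψ B v b n hv => (h3 c mc hN ψ hψ B v b n hv).2,
    fun J ψ hψ B n => (h4 J ψ hψ B n).2⟩

/-- An attack on a key. -/
theorem gv_att (hF : FS 𝔅 E K argX wf) {w : List Tok} {W : ℕ} (hD : D2f 𝔅 E K argX wf w W)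
    {J : List Key} (hJ : ∀ k ∈ J, vk w k = true) {c : Cl} {mc m : Fls} (hN : N c ≤ W)
    (hl : Loc 𝔅 J c mc m) {n : ℕ} (hn : w.length ≤ n) (k u : ℕ) (b : Bool) :
    GV (tstep E K argX wf w) tout W n (att wf w J c mc m k u b) := by
  unfold att
  by_cases h1 : k < J.length ∧ u < N c ∧ wf (J.getD k ([], [])).1 = true ∧
      (J.getD k ([], []), b) ∉ m
  · rw [if_pos h1]
    obtain ⟨hk, hu, hw, hm⟩ := h1
    have hmem : J.getD k ([], []) ∈ J := by
      rw [List.getD_eq_getElem _ _ hk]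
      exact List.getElem_mem hk
    have hvk := hJ _ hmem
    rw [if_pos hvk]
    obtain ⟨ψ, hψ, hpr⟩ := (hF.wf _).1 hw
    generalize J.getD k ([], []) = κ at *
    obtain ⟨κ1, B⟩ := κ
    dsimp only at hpr
    subst hpr
    refine hD.ev c mc hN ψ hψ B u (!b) n hu ((vk_len hvk).trans hn) (vk_mem hvk) ?_
    have h3 := hl ψ B b hψ hmem hm u hu
    revert h3
    cases kv c mc ψ B u <;> cases b <;> simp
  · rw [if_neg h1]
    exact (hD.fin true n).2 rfl

/-- Phases 2 and 3. -/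
theorem gv_ph2 (hF : FS 𝔅 E K argX wf) {w : List Tok} {W L : ℕ}
    (hD : D2f 𝔅 E K argX wf w W) (hL : L ≤ W) (hL0 : 0 < L)
    (hsz : ∀ (sel : Bool) (i u : ℕ) (s : Sp) (u0 : ℕ), i < L → u < L → u0 < L →
      vsp w L s = true → 2 * sz (((sel, i, u), s.1, s.2.1, s.2.2, u0) : An) + 1 ≤ W)
    {J : List Key} {SC : List Sp} (hJ : ∀ k ∈ J, vk w k = true) (hSL : SC.length ≤ L)
    (hS : ∀ s ∈ SC, vsp w L s = true) : ∀ (nn : ℕ) (Z : List ℕ) (m : Fls),
    (∀ i ∈ Z, i < SC.length) →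
    Gd 𝔅 (fun c Z m => vsp w L (c, Z, m) = true) J SC nn Z m → ∀ n, 2 * nn + w.length ≤ n →
      GV (tstep E K argX wf w) tout W n
        ((none, 2), (SC, J), (Z, m, (([], []), false)), ev0) := by
  have hsp : ∀ i < SC.length, vsp w L (sp SC i) = true := by
    intro i hi
    refine hS _ ?_
    unfold sp
    rw [List.getD_eq_getElem _ _ hi]
    exact List.getElem_mem hi
  have hNcl : ∀ i < SC.length, N (cl SC i) ≤ L := fun i hi => vsp_N (hsp i hi)
  intro nn
  induction nn with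
  | zero => intro Z m _ h; exact h.elim
  | succ nn ih =>
    intro Z m hZ h n hn
    obtain ⟨n', rfl⟩ : ∃ n', n = n' + 1 + 1 := ⟨n - 2, by omega⟩
    have hn' : w.length ≤ n' := by omega
    rw [GV]
    refine ⟨List.replicate W false, by simp, fun M' _ => ?_⟩
    show GV _ _ _ _ (ph2 wf w SC J Z m (chl M').2.2.2.1)
    generalize (chl M').2.2.2.1 = k
    unfold ph2
    by_cases h1 : k < m.length ∧ (m.getD k (([], []), false)).1 ∈ J ∧
      wf (m.getD k (([], []), false)).1.1 = true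
    swap
    · rw [if_neg h1]
      exact (hD.fin true _).2 rfl
    rw [if_pos h1]
    obtain ⟨hk, hκJ, hw⟩ := h1
    have hκm : m.getD k (([], []), false) ∈ m := by
      rw [List.getD_eq_getElem _ _ hk]
      exact List.getElem_mem hk
    have hvk := hJ _ hκJ
    rw [if_pos hvk]
    obtain ⟨ψ, hψ, hpr⟩ := (hF.wf _).1 hw
    generalize m.getD k (([], []), false) = κ at *
    obtain ⟨⟨κ1, B⟩, b⟩ := κ
    dsimp only at hpr
    subst hpr
    have hlen : (pr ψ).length ≤ n' := (vk_len hvk).trans hn'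
    have hmem : ∀ t ∈ pr ψ, t ∈ w := vk_mem hvk
    have hvk' : ¬ (vk w (pr ψ, B) = false) := by
      rw [show vk w (pr ψ, B) = true from hvk]
      simp
    rw [GV]
    rcases h ψ B b hψ hκJ hκm with ⟨i, hi, u, hu, hv⟩ |
      ⟨c, Z', m', hbd, hcl, hn1, hn2, hZ', hm', hok, hloc, ⟨u, hu, hv⟩, hor⟩
    · have hi' := hZ i hi
      obtain ⟨M, hM, hMd⟩ := exists_msg
        (((false, i, u), (true, (0, [], []), []), [], [], 0) : An)
        (hsz false i u ((true, (0, [], []), []), [], []) 0 (hi'.trans_le hSL)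
          (hu.trans_le (hNcl i hi')) hL0 (by
            unfold vsp vcl vz vf vl N
            simp))
      refine ⟨M, hM, fun M'' _ => ?_⟩
      show GV _ _ _ _ (ph3 wf w SC J Z m ((pr ψ, B), b) M (chl M''))
      unfold ph3
      rw [hMd]
      dsimp only
      rw [if_neg hvk', if_pos rfl, if_pos ⟨hi, hu, by rw [hM]; exact vsp_mono hL (hsp i hi')⟩]
      exact hD.ev _ _ ((hNcl i hi').trans hL) ψ hψ B u b n' hu hlen hmem hv
    · have hNc : N c ≤ L := vsp_N (s := (c, Z', m')) hbd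
      have huL : u < L := hu.trans_le hNc
      obtain ⟨M, hM, hMd⟩ := exists_msg (((true, 0, 0), c, Z', m', u) : An)
        (hsz true 0 0 (c, Z', m') u hL0 hL0 huL hbd)
      refine ⟨M, hM, fun M'' _ => ?_⟩
      show GV _ _ _ _ (ph3 wf w SC J Z m ((pr ψ, B), b) M (chl M''))
      unfold ph3
      rw [hMd]
      dsimp only
      rw [if_neg hvk', if_neg (by simp), if_pos ⟨(clokb_iff c).2 hcl, hn1, hn2,
        (subb_iff _ _).2 hZ', (subb_iff _ _).2 hm', hu, by rw [hM]; exact hNc.trans hL⟩]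
      generalize chl M'' = x
      by_cases hx0 : x.1 = 0
      · rw [if_pos hx0]
        exact hD.ev c m' (hNc.trans hL) ψ hψ B u b n' hu hlen hmem hv
      rw [if_neg hx0]
      by_cases hx1 : x.1 = 1
      · rw [if_pos hx1]
        exact gv_att hF hD hJ (hNc.trans hL) hloc hn' _ _ _
      rw [if_neg hx1]
      by_cases hx2 : x.1 = 2
      · rw [if_pos hx2]
        by_cases hxz : x.2.2.1 ∈ Z'
        · rw [if_pos hxz]
          obtain ⟨o1, o2, o3, o4⟩ := hok _ hxz
          refine (hD.fin _ _).2 ?_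
          rw [Bool.and_eq_true, Bool.and_eq_true]
          exact ⟨⟨decide_eq_true o1, (subb_iff _ _).2 o2⟩, (subb_iff _ _).2 o3⟩
        · rw [if_neg hxz]
          exact (hD.fin true _).2 rfl
      rw [if_neg hx2]
      by_cases hx3 : x.1 = 3
      · rw [if_pos hx3]
        by_cases hxz : x.2.2.1 ∈ Z'
        · obtain ⟨o1, o2, o3, o4⟩ := hok _ hxz
          rw [if_pos hxz, if_pos (by rw [hM]; exact vsp_mono hL (hsp _ o1))]
          exact gv_att hF hD hJ ((hNcl _ o1).trans hL) o4 hn' _ _ _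
        · rw [if_neg hxz]
          exact (hD.fin true _).2 rfl
      rw [if_neg hx3]
      by_cases hx4 : x.1 = 4
      · rw [if_pos hx4]
        by_cases hss : subb Z Z' = true ∧ subb m m' = true
        · rw [if_pos hss]
          exact (hD.fin true _).2 rfl
        · rw [if_neg hss]
          rcases hor with ⟨e1, e2⟩ | hg
          · exact absurd ⟨(subb_iff _ _).2 e1, (subb_iff _ _).2 e2⟩ hss
          · exact ih Z' m' (fun i hi => (hok i hi).1) hg n' (by omega)
      rw [if_neg hx4]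
      exact (hD.fin true _).2 rfl

/-- Phase 1. -/
theorem gv_ph1 (hF : FS 𝔅 E K argX wf) {φ : Form 𝔅} (hφ : NoAt φ) {W L : ℕ}
    (hD : D2f 𝔅 E K argX wf (pr φ) W) (hL : L ≤ W)
    (hsz : ∀ (sel : Bool) (i u : ℕ) (s : Sp) (u0 : ℕ), i < L → u < L → u0 < L →
      vsp (pr φ) L s = true → 2 * sz (((sel, i, u), s.1, s.2.1, s.2.2, u0) : An) + 1 ≤ W)
    {J : List Key} {SC : List Sp} {v0 : ℕ}
    (hc : IsCert (fun c Z m => vsp (pr φ) L (c, Z, m) = true) J SC L φ v0)
    (hJ : ∀ k ∈ J, vk (pr φ) k = true) (hSL : SC.length ≤ L)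
    (hS : ∀ s ∈ SC, vsp (pr φ) L s = true) (n : ℕ) (hn : 2 * L + (pr φ).length ≤ n)
    (x : ℕ × ℕ × ℕ × ℕ × ℕ × Bool) :
    GV (tstep E K argX wf (pr φ)) tout W n (ph1 wf (pr φ) SC J v0 W x) := by
  have hsp : ∀ i < SC.length, vsp (pr φ) L (sp SC i) = true := by
    intro i hi
    refine hS _ ?_
    unfold sp
    rw [List.getD_eq_getElem _ _ hi]
    exact List.getElem_mem hi
  have hNcl : ∀ i < SC.length, N (cl SC i) ≤ L := fun i hi => vsp_N (hsp i hi)
  have hL0 : 0 < L := hc.len.trans_le hSL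
  have hn' : (pr φ).length ≤ n := by omega
  unfold ph1
  by_cases h0 : x.1 = 0
  · rw [if_pos h0, if_pos (vsp_mono hL (hsp 0 hc.len))]
    exact hD.ev _ _ ((hNcl 0 hc.len).trans hL) φ hφ [] v0 true n hc.hv0 hn' (fun t ht => ht)
      hc.val
  rw [if_neg h0]
  by_cases h1 : x.1 = 1
  · rw [if_pos h1]
    exact hD.nd J φ hφ [] n hn' hc.need
  rw [if_neg h1]
  by_cases h2 : x.1 = 2
  · rw [if_pos h2]
    by_cases h3 : x.2.2.2.1 < J.length ∧ wf (J.getD x.2.2.2.1 ([], [])).1 = true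
    · rw [if_pos h3]
      obtain ⟨hk, hw⟩ := h3
      have hmem : J.getD x.2.2.2.1 ([], []) ∈ J := by
        rw [List.getD_eq_getElem _ _ hk]
        exact List.getElem_mem hk
      have hvk := hJ _ hmem
      rw [if_pos hvk]
      obtain ⟨ψ, hψ, hpr⟩ := (hF.wf _).1 hw
      generalize J.getD x.2.2.2.1 ([], []) = κ at *
      obtain ⟨κ1, B⟩ := κ
      dsimp only at hpr
      subst hpr
      exact hD.nd J ψ hψ B n ((vk_len hvk).trans hn') (hc.needJ ψ B hψ hmem)
    · rw [if_neg h3]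
      exact (hD.fin true _).2 rfl
  rw [if_neg h2]
  by_cases hj : x.2.1 < SC.length
  swap
  · rw [if_neg hj]
    exact (hD.fin true _).2 rfl
  rw [if_pos hj]
  by_cases h3 : x.1 = 3
  · rw [if_pos h3]
    refine (hD.fin _ _).2 ?_
    rw [Bool.and_eq_true]
    exact ⟨(clokb_iff _).2 (hc.clok _ hj), decide_eq_true (hc.irr _ hj)⟩
  rw [if_neg h3]
  by_cases h4 : x.1 = 4
  · rw [if_pos h4]
    by_cases h5 : x.2.2.1 < SC.length ∧ x.2.1 ≠ x.2.2.1
    · rw [if_pos h5]
      refine (hD.fin _ _).2 ?_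
      have u1 := hc.uN _ hj _ h5.1 h5.2 x.2.2.2.1
      have u2 := hc.uF _ hj _ h5.1 h5.2 x.2.2.2.1
      rw [vsp_mono hL (hsp _ hj), vsp_mono hL (hsp _ h5.1)]
      simp only [Bool.true_and, Bool.and_eq_true, Bool.not_eq_true', ← Bool.decide_and,
        decide_eq_false_iff_not]
      exact ⟨u1, u2⟩
    · rw [if_neg h5]
      exact (hD.fin true _).2 rfl
  rw [if_neg h4]
  have hok := hc.ok _ hj
  by_cases h5 : x.1 = 5
  · rw [if_pos h5, if_neg (by rw [vsp_mono hL (hsp _ hj)]; simp)]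
    by_cases h6 : x.2.2.1 ∈ ab SC x.2.1
    · rw [if_pos h6]
      obtain ⟨o1, o2, o3, o4⟩ := hok _ h6
      refine (hD.fin _ _).2 ?_
      rw [Bool.and_eq_true, Bool.and_eq_true]
      exact ⟨⟨decide_eq_true o1, (subb_iff _ _).2 o2⟩, (subb_iff _ _).2 o3⟩
    · rw [if_neg h6]
      exact (hD.fin true _).2 rfl
  rw [if_neg h5]
  by_cases h6 : x.1 = 6
  · rw [if_pos h6]
    by_cases h7 : x.2.2.1 ∈ ab SC x.2.1
    · obtain ⟨o1, o2, o3, o4⟩ := hok _ h7
      rw [if_pos h7, if_pos (vsp_mono hL (hsp _ o1))]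
      exact gv_att hF hD hJ ((hNcl _ o1).trans hL) o4 hn' _ _ _
    · rw [if_neg h7]
      exact (hD.fin true _).2 rfl
  rw [if_neg h6]
  by_cases h7 : x.1 = 7
  · rw [if_pos h7, if_pos (vsp_mono hL (hsp _ hj))]
    exact gv_ph2 hF hD hL hL0 hsz hJ hSL hS L _ _ (fun i hi => (hok i hi).1) (hc.gd _ hj) n hn
  rw [if_neg h7]
  exact (hD.fin true _).2 rfl

/-- **D4**: a certificate gives a won game. -/
theorem d4 (h2 : D2) : D4 := by
  intro 𝔅 E K argX wf hF φ hφ W L har hL hs1 hs2 J SC v0 hc hJL hSL hJ hS n hn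
  have hD := D2f_of h2 hF (pr φ) har
  obtain ⟨n', rfl⟩ : ∃ n', n = n' + 1 + 1 := ⟨n - 2, by omega⟩
  have hsp0 : vsp (pr φ) L (sp SC 0) = true := by
    refine hS _ ?_
    unfold sp
    rw [List.getD_eq_getElem _ _ hc.len]
    exact List.getElem_mem hc.len
  have hv0L : v0 < L := hc.hv0.trans_le (vsp_N hsp0)
  obtain ⟨M, hM, hMd⟩ := exists_msg (SC, J, v0) (hs1 SC J v0 hSL hJL hv0L hJ hS)
  rw [GV]
  refine ⟨M, hM, fun M' _ => ?_⟩
  show GV _ _ _ _ (ph0 M)
  unfold ph0
  rw [hMd]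
  dsimp only
  rw [if_pos ⟨hc.len, hc.hv0⟩, GV]
  refine ⟨List.replicate W false, by simp, fun M'' _ => ?_⟩
  show GV _ _ _ _ (ph1 wf (pr φ) SC J v0 (List.replicate W false).length (chl M''))
  rw [List.length_replicate]
  exact gv_ph1 hF hφ hD hL hs2 hc hJ hSL hS n' (by omega) _

end Pool.Agent.Helper78.TRD4
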